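import Mathlib

/-! Moments: from Chebyshev moments to polynomials. -/
set_option autoImplicit false
open MeasureTheory Filter Topology Set Polynomial

namespace Pool.Agent.K3h55.PW

noncomputable section

open Polynomial.Chebyshev (T)

variable {ι : Type*}

/-- the coefficient of the defect -/
def ec (P : ℝ[X]) : ℝ := (2 * P.eval 1 + P.eval (-1)) / 3

/-- the mean with respect to the distribution of `cos θ`, times two -/
def I2 (F : ℝ → ℝ) : ℝ := 2 / Real.pi * ∫ θ in (0 : ℝ)..Real.pi, F (Real.cos θ)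

/-- the data -/
structure Dat (x p : ℕ → ι → ℝ) (J : ℝ) (d : ℕ → ℝ) : Prop where
  p0 : ∀ n i, 0 ≤ p n i
  x1 : ∀ n i, x n i ≤ 1
  J0 : 0 ≤ J
  sm : ∀ n (j : ℕ), Summable (fun i => (T ℝ j).eval (x n i) * p n i)
  lim : ∀ j : ℕ, Tendsto (fun n => (∑' i, (T ℝ j).eval (x n i) * p n i) -
    (if j = 0 then 3 else 1) * J - (2 + (-1) ^ j) / 3 * d n) atTop (𝓝 0)

lemma span_T (P : ℝ[X]) : P ∈ Submodule.span ℝ (Set.range fun j : ℕ => T ℝ (j : ℤ)) := by
  set S := Submodule.span ℝ (Set.range fun j : ℕ => T ℝ (j : ℤ)) with hS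
  have mem : ∀ j : ℕ, T ℝ (j : ℤ) ∈ S := fun j => Submodule.subset_span ⟨j, rfl⟩
  have hX : ∀ P ∈ S, X * P ∈ S := by
    intro P hP
    induction hP using Submodule.span_induction with
    | mem P hP =>
      obtain ⟨j, rfl⟩ := hP
      rcases j with _ | j
      · have := mem 1
        simpa using this
      · have h1 := mem (j + 2)
        have h2 := mem j
        have h3 := Chebyshev.T_add_two ℝ (j : ℤ)
        have e : X * T ℝ ((j + 1 : ℕ) : ℤ) = (1 / 2 : ℝ) • (T ℝ ((j + 2 : ℕ) : ℤ) + T ℝ (j : ℤ)) := by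
          push_cast
          rw [h3]
          have : (2 * X * T ℝ ((j : ℤ) + 1) - T ℝ (j : ℤ) + T ℝ (j : ℤ)) =
              (2 : ℝ) • (X * T ℝ ((j : ℤ) + 1)) := by
            rw [sub_add_cancel, two_smul]; ring
          rw [this, smul_smul]; norm_num
        show X * T ℝ ((j + 1 : ℕ) : ℤ) ∈ S
        rw [e]
        exact S.smul_mem _ (S.add_mem h1 h2)
    | zero => simp
    | add P Q _ _ h1 h2 => rw [mul_add]; exact S.add_mem h1 h2
    | smul a P _ h => rw [mul_smul_comm]; exact S.smul_mem _ h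
  have h1 : (1 : ℝ[X]) ∈ S := by simpa using mem 0
  have hk : ∀ k : ℕ, (X : ℝ[X]) ^ k ∈ S := by
    intro k
    induction k with
    | zero => simpa using h1
    | succ k ih => rw [pow_succ, mul_comm]; exact hX _ ih
  rw [P.as_sum_range_C_mul_X_pow]
  exact S.sum_mem fun i _ => by rw [← smul_eq_C_mul]; exact S.smul_mem _ (hk i)

lemma I2_T (j : ℕ) : I2 (fun y => (T ℝ (j : ℤ)).eval y) = if j = 0 then 2 else 0 := by
  unfold I2
  have e : ∀ θ : ℝ, (T ℝ (j : ℤ)).eval (Real.cos θ) = Real.cos (j * θ) := by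
    intro θ
    simp [Polynomial.Chebyshev.T_real_cos θ (j : ℤ)]
  simp only [e]
  by_cases hj : j = 0
  · subst hj
    simp
  · rw [if_neg hj]
    have hj' : (j : ℝ) ≠ 0 := by exact_mod_cast hj
    rw [intervalIntegral.integral_comp_mul_left (fun y => Real.cos y) hj']
    simp [integral_cos]

lemma I2_add {F G : ℝ → ℝ} (hF : Continuous F) (hG : Continuous G) :
    I2 (fun y => F y + G y) = I2 F + I2 G := by
  unfold I2
  have e := intervalIntegral.integral_add (f := fun θ => F (Real.cos θ))
    (g := fun θ => G (Real.cos θ)) (μ := volume) (a := 0) (b := Real.pi)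
    ((hF.comp Real.continuous_cos).intervalIntegrable _ _)
    ((hG.comp Real.continuous_cos).intervalIntegrable _ _)
  rw [e]
  ring

lemma I2_smul (c : ℝ) (F : ℝ → ℝ) : I2 (fun y => c * F y) = c * I2 F := by
  unfold I2
  rw [intervalIntegral.integral_const_mul]
  ring

lemma I2_mono {F G : ℝ → ℝ} (hF : Continuous F) (hG : Continuous G)
    (h : ∀ y ∈ Icc (-1 : ℝ) 1, F y ≤ G y) : I2 F ≤ I2 G := by
  unfold I2
  refine mul_le_mul_of_nonneg_left ?_ (by positivity)
  exact intervalIntegral.integral_mono_on Real.pi_pos.le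
    ((hF.comp Real.continuous_cos).intervalIntegrable _ _)
    ((hG.comp Real.continuous_cos).intervalIntegrable _ _)
    (fun θ _ => h _ ⟨Real.neg_one_le_cos θ, Real.cos_le_one θ⟩)

lemma I2_const (c : ℝ) : I2 (fun _ => c) = 2 * c := by
  unfold I2
  simp
  field_simp

/-- the moments -/
theorem Dat.poly {x p : ℕ → ι → ℝ} {J : ℝ} {d : ℕ → ℝ} (H : Dat x p J d) (P : ℝ[X]) :
    (∀ n, Summable (fun i => P.eval (x n i) * p n i)) ∧
    Tendsto (fun n => (∑' i, P.eval (x n i) * p n i) - ec P * d n) atTop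
      (𝓝 ((P.eval 1 + I2 (fun y => P.eval y)) * J)) := by
  induction span_T P using Submodule.span_induction with
  | mem P hP =>
    obtain ⟨j, rfl⟩ := hP
    refine ⟨fun n => H.sm n j, ?_⟩
    have h1 := (H.lim j).add_const ((if j = 0 then 3 else 1) * J)
    rw [zero_add] at h1
    have e1 : ((T ℝ (j : ℤ)).eval 1 + I2 (fun y => (T ℝ (j : ℤ)).eval y)) * J =
        (if j = 0 then 3 else 1) * J := by
      rw [I2_T, Chebyshev.T_eval_one]
      by_cases hj : j = 0
      · rw [if_pos hj, if_pos hj]; norm_num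
      · rw [if_neg hj, if_neg hj]; norm_num
    have e2 : ec (T ℝ (j : ℤ)) = (2 + (-1) ^ j) / 3 := by
      unfold ec
      rw [Chebyshev.T_eval_one, Chebyshev.T_eval_neg_one]
      simp
    rw [e1]
    refine h1.congr fun n => ?_
    rw [e2]; ring
  | zero =>
    refine ⟨fun n => by simp, ?_⟩
    simp [ec, I2]
  | add P Q _ _ h1 h2 =>
    refine ⟨fun n => ?_, ?_⟩
    · refine ((h1.1 n).add (h2.1 n)).congr fun i => ?_
      rw [eval_add]; ring
    · have h3 := h1.2.add h2.2
      have e1 : ((P + Q).eval 1 + I2 (fun y => (P + Q).eval y)) * J =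
          (P.eval 1 + I2 (fun y => P.eval y)) * J + (Q.eval 1 + I2 (fun y => Q.eval y)) * J := by
        simp only [eval_add]
        rw [I2_add P.continuous Q.continuous]; ring
      rw [e1]
      refine h3.congr fun n => ?_
      have e2 : ∑' i, (P + Q).eval (x n i) * p n i =
          (∑' i, P.eval (x n i) * p n i) + ∑' i, Q.eval (x n i) * p n i := by
        rw [← (h1.1 n).tsum_add (h2.1 n)]
        congr 1; funext i; rw [eval_add]; ring
      rw [e2]
      simp only [ec, eval_add]
      ring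
  | smul a P _ h1 =>
    refine ⟨fun n => ?_, ?_⟩
    · refine ((h1.1 n).mul_left a).congr fun i => ?_
      rw [eval_smul, smul_eq_mul]; ring
    · have h3 := h1.2.const_mul a
      have e1 : ((a • P).eval 1 + I2 (fun y => (a • P).eval y)) * J =
          a * ((P.eval 1 + I2 (fun y => P.eval y)) * J) := by
        simp only [eval_smul, smul_eq_mul]
        rw [I2_smul]; ring
      rw [e1]
      refine h3.congr fun n => ?_
      have e2 : ∑' i, (a • P).eval (x n i) * p n i = a * ∑' i, P.eval (x n i) * p n i := by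
        rw [← tsum_mul_left]
        congr 1; funext i; rw [eval_smul, smul_eq_mul]; ring
      rw [e2]
      simp only [ec, eval_smul, smul_eq_mul]
      ring

end

end Pool.Agent.K3h55.PW
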