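import Pool.Agent.K3h55.PW.A

/-! Weighted convergence and tails. -/
set_option autoImplicit false
open MeasureTheory Filter Topology Set Polynomial

namespace Pool.Agent.K3h55.PW

noncomputable section

open Polynomial.Chebyshev (T)

variable {ι : Type*} {x p : ℕ → ι → ℝ} {J : ℝ} {d : ℕ → ℝ}

/-- the weight `(1 - x²)²` -/
def W : ℝ[X] := (1 - X ^ 2) ^ 2

lemma W_eval (y : ℝ) : W.eval y = (1 - y ^ 2) ^ 2 := by simp [W]

lemma W_nn (y : ℝ) : 0 ≤ W.eval y := by rw [W_eval]; positivity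

lemma W_le {y : ℝ} (h : y ∈ Icc (-1 : ℝ) 1) : W.eval y ≤ 1 := by
  rw [W_eval]
  have h1 : y ^ 2 ≤ 1 := by nlinarith [h.1, h.2]
  have h2 : 0 ≤ y ^ 2 := sq_nonneg y
  nlinarith

lemma Dat.dom (H : Dat x p J d) {F : ℝ → ℝ} (P : ℝ[X]) (h : ∀ y ≤ 1, |F y| ≤ P.eval y) (n : ℕ) :
    Summable (fun i => F (x n i) * p n i) := by
  refine Summable.of_norm_bounded ((H.poly P).1 n) fun i => ?_
  rw [Real.norm_eq_abs, abs_mul, abs_of_nonneg (H.p0 n i)]
  exact mul_le_mul_of_nonneg_right (h _ (H.x1 n i)) (H.p0 n i)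

lemma Dat.mono (H : Dat x p J d) {F G : ℝ → ℝ} {n : ℕ}
    (hF : Summable (fun i => F (x n i) * p n i)) (hG : Summable (fun i => G (x n i) * p n i))
    (h : ∀ y ≤ 1, F y ≤ G y) : ∑' i, F (x n i) * p n i ≤ ∑' i, G (x n i) * p n i :=
  hF.tsum_le_tsum (fun i => mul_le_mul_of_nonneg_right (h _ (H.x1 n i)) (H.p0 n i)) hG

lemma Dat.pw (H : Dat x p J d) (P : ℝ[X]) :
    Tendsto (fun n => ∑' i, (W * P).eval (x n i) * p n i) atTop
      (𝓝 (I2 (fun y => (W * P).eval y) * J)) := by
  have h := (H.poly (W * P)).2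
  have e1 : (W * P).eval 1 = 0 := by simp [W]
  have e2 : ec (W * P) = 0 := by simp [ec, W]
  simpa [e1, e2] using h

/-- weighted convergence -/
theorem Dat.E1 (H : Dat x p J d) {K : ℝ → ℝ} (hK : Continuous K) {C : ℝ}
    (hC : ∀ y ≤ 1, |K y| ≤ C) :
    (∀ n, Summable (fun i => (W.eval (x n i) * K (x n i)) * p n i)) ∧
    Tendsto (fun n => ∑' i, (W.eval (x n i) * K (x n i)) * p n i) atTop
      (𝓝 (I2 (fun y => W.eval y * K y) * J)) := by
  have C0 : 0 ≤ C := (abs_nonneg _).trans (hC 0 (by norm_num))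
  have sK : ∀ n, Summable (fun i => (W.eval (x n i) * K (x n i)) * p n i) :=
    H.dom (F := fun y => W.eval y * K y) (Polynomial.C C * W) (fun y hy => by
      rw [abs_mul, abs_of_nonneg (W_nn y)]
      simp only [eval_mul, eval_C]
      have := hC y hy
      nlinarith [W_nn y])
  refine ⟨sK, ?_⟩
  rw [Metric.tendsto_nhds]
  intro e he
  have J0 := H.J0
  set ε : ℝ := e / (2 * (4 * J + 4)) with hε
  have ε0 : 0 < ε := by positivity
  obtain ⟨P, hP⟩ := exists_polynomial_near_of_continuousOn (-3) 1 K hK.continuousOn ε ε0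
  set R : ℝ[X] := Polynomial.C (C + 1) + P ^ 2 with hR
  -- bound of `W R` on `[-1, 1]`
  obtain ⟨M, hM⟩ := (isCompact_Icc (a := (-1 : ℝ)) (b := 1)).exists_bound_of_continuousOn
    (f := fun y => (W * R).eval y) (W * R).continuous.continuousOn
  have M0 : 0 ≤ M := (norm_nonneg _).trans (hM 0 (by norm_num))
  obtain ⟨s, hs⟩ : ∃ s : ℕ, 2 * (M * (1 / 9 : ℝ) ^ s) * J < ε := by
    have : Tendsto (fun s : ℕ => 2 * (M * (1 / 9 : ℝ) ^ s) * J) atTop (𝓝 (2 * (M * 0) * J)) :=
      (((tendsto_pow_atTop_nhds_zero_of_lt_one (by norm_num) (by norm_num)).const_mul M).const_mul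
        2).mul_const J
    rw [mul_zero, mul_zero, zero_mul] at this
    exact (this.eventually (gt_mem_nhds ε0)).exists
  set S : ℝ[X] := Polynomial.C ((1 / 9 : ℝ) ^ s) * (X ^ (2 * s) * R) with hS
  have RS : ∀ y : ℝ, (W * S).eval y = (1 / 9 : ℝ) ^ s * y ^ (2 * s) * (W * R).eval y := by
    intro y; simp only [hS, eval_mul, eval_C, eval_pow, eval_X]; ring
  have R1 : ∀ y : ℝ, R.eval y = C + 1 + P.eval y ^ 2 := by
    intro y; simp [hR]
  have nnR : ∀ y : ℝ, 0 ≤ (W * R).eval y := fun y => by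
    rw [eval_mul, R1]; exact mul_nonneg (W_nn y) (by positivity)
  have nnS : ∀ y : ℝ, 0 ≤ (W * S).eval y := fun y => by
    rw [RS, pow_mul]; exact mul_nonneg (by positivity) (nnR y)
  have key : ∀ y ≤ 1, |W.eval y * K y - (W * P).eval y| ≤ ε * W.eval y + (W * S).eval y := by
    intro y hy
    rw [eval_mul, ← mul_sub, abs_mul, abs_of_nonneg (W_nn y)]
    rcases le_or_gt (-3) y with h3 | h3
    · have h1 := (hP y ⟨h3, hy⟩).le
      rw [abs_sub_comm] at h1
      have h2 := mul_le_mul_of_nonneg_left h1 (W_nn y)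
      have := nnS y
      linarith
    · have h1 : |K y - P.eval y| ≤ R.eval y := by
        rw [R1]
        have a1 := abs_sub (K y) (P.eval y)
        have a2 := hC y hy
        have a3 : |P.eval y| ≤ 1 + P.eval y ^ 2 := by
          rw [← sq_abs]; nlinarith [sq_nonneg (|P.eval y| - 1), abs_nonneg (P.eval y)]
        linarith
      have h2 : (1 : ℝ) ≤ (1 / 9 : ℝ) ^ s * y ^ (2 * s) := by
        rw [pow_mul, ← mul_pow]
        exact one_le_pow₀ (by nlinarith)
      have h3 : W.eval y * R.eval y ≤ (W * S).eval y := by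
        rw [RS, eval_mul]
        have := nnR y
        rw [eval_mul] at this
        nlinarith
      have h4 := mul_le_mul_of_nonneg_left h1 (W_nn y)
      have := mul_nonneg ε0.le (W_nn y)
      linarith
  -- limits
  have l1 := H.pw P
  have l2 : Tendsto (fun n => ∑' i, (W * 1).eval (x n i) * p n i) atTop _ := H.pw 1
  have l3 := H.pw S
  have b2 : I2 (fun y => (W * 1).eval y) ≤ 2 := by
    have := I2_mono (W * 1).continuous (continuous_const (y := (1 : ℝ))) (fun y hy => by
      rw [mul_one]; exact W_le hy)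
    rw [I2_const] at this
    linarith
  have b3 : I2 (fun y => (W * S).eval y) ≤ 2 * (M * (1 / 9 : ℝ) ^ s) := by
    have := I2_mono (W * S).continuous (continuous_const (y := M * (1 / 9 : ℝ) ^ s))
      (fun y hy => by
        rw [RS]
        have h1 := hM y hy
        rw [Real.norm_eq_abs, abs_of_nonneg (nnR y)] at h1
        have h2 : y ^ (2 * s) ≤ 1 := by
          rw [pow_mul]; exact pow_le_one₀ (sq_nonneg y) (by nlinarith [hy.1, hy.2])
        have h3 : 0 ≤ y ^ (2 * s) := by rw [pow_mul]; positivity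
        have h4 : (0 : ℝ) ≤ (1 / 9 : ℝ) ^ s := by positivity
        calc (1 / 9 : ℝ) ^ s * y ^ (2 * s) * (W * R).eval y
            ≤ (1 / 9 : ℝ) ^ s * 1 * M := by
              refine mul_le_mul (mul_le_mul_of_nonneg_left h2 h4) h1 (nnR y) (by positivity)
          _ = M * (1 / 9 : ℝ) ^ s := by ring)
    rwa [I2_const] at this
  have b1 : |I2 (fun y => W.eval y * K y) - I2 (fun y => (W * P).eval y)| ≤ 2 * ε := by
    have cK : Continuous (fun y => W.eval y * K y) := W.continuous.mul hK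
    have h1 : ∀ y ∈ Icc (-1 : ℝ) 1, |W.eval y * K y - (W * P).eval y| ≤ ε := by
      intro y hy
      rw [eval_mul, ← mul_sub, abs_mul, abs_of_nonneg (W_nn y)]
      have h1 := (hP y ⟨by linarith [hy.1], hy.2⟩).le
      rw [abs_sub_comm] at h1
      have h2 := W_le hy
      calc W.eval y * |K y - P.eval y| ≤ 1 * ε := by
            exact mul_le_mul h2 h1 (abs_nonneg _) zero_le_one
        _ = ε := one_mul _
    have u1 := I2_mono (G := fun y => (W * P).eval y + ε) cK
      ((W * P).continuous.add (continuous_const (y := ε))) (fun y hy => by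
      have := (abs_le.1 (h1 y hy)).2; linarith)
    have u2 := I2_mono (F := fun y => (W * P).eval y + -ε)
      ((W * P).continuous.add (continuous_const (y := -ε))) cK (fun y hy => by
      have := (abs_le.1 (h1 y hy)).1; linarith)
    rw [I2_add (W * P).continuous continuous_const, I2_const] at u1 u2
    rw [abs_le]; constructor <;> linarith
  have f1 := Metric.tendsto_nhds.1 l1 ε ε0
  have f2 : ∀ᶠ n in atTop, ∑' i, (W * 1).eval (x n i) * p n i < 2 * J + 1 :=
    l2.eventually (gt_mem_nhds (by nlinarith))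
  have f3 : ∀ᶠ n in atTop, ∑' i, (W * S).eval (x n i) * p n i < ε :=
    l3.eventually (gt_mem_nhds (by nlinarith))
  filter_upwards [f1, f2, f3] with n g1 g2 g3
  have sP := (H.poly (W * P)).1 n
  have sW := (H.poly (W * 1)).1 n
  have sS := (H.poly (W * S)).1 n
  have g4 : |(∑' i, (W.eval (x n i) * K (x n i)) * p n i) - ∑' i, (W * P).eval (x n i) * p n i| ≤
      ε * (∑' i, (W * 1).eval (x n i) * p n i) + ∑' i, (W * S).eval (x n i) * p n i := by
    rw [← (sK n).tsum_sub sP, ← tsum_mul_left, ← (sW.mul_left ε).tsum_add sS,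
      ← Real.norm_eq_abs]
    refine (norm_tsum_le_tsum_norm ?_).trans ?_
    · exact ((sK n).sub sP).norm
    · refine Summable.tsum_le_tsum (fun i => ?_) ((sK n).sub sP).norm ((sW.mul_left ε).add sS)
      rw [← sub_mul, Real.norm_eq_abs, abs_mul, abs_of_nonneg (H.p0 n i), mul_one]
      have := mul_le_mul_of_nonneg_right (key _ (H.x1 n i)) (H.p0 n i)
      linarith
  rw [Real.dist_eq] at g1 ⊢
  have g5 : |I2 (fun y => W.eval y * K y) * J - I2 (fun y => (W * P).eval y) * J| ≤ 2 * ε * J := by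
    rw [← sub_mul, abs_mul, abs_of_nonneg J0]
    exact mul_le_mul_of_nonneg_right b1 J0
  have g6 : ε * (∑' i, (W * 1).eval (x n i) * p n i) ≤ ε * (2 * J + 1) :=
    mul_le_mul_of_nonneg_left g2.le ε0.le
  have g7 : ε * (4 * J + 4) = e / 2 := by rw [hε]; field_simp
  rw [abs_lt] at g1 ⊢
  rw [abs_le] at g4 g5
  constructor <;> nlinarith [g1.1, g1.2, g4.1, g4.2, g5.1, g5.2]

/-- tails -/
theorem Dat.E2 (H : Dat x p J d) {y₀ : ℝ} (hy : 1 < y₀) (k : ℕ) :
    Tendsto (fun n => ∑' i, (if x n i ≤ -y₀ then |x n i| ^ k else 0) * p n i) atTop (𝓝 0) := by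
  have J0 := H.J0
  have w0 : 0 < W.eval y₀ := by
    rw [W_eval]; have : (1 : ℝ) - y₀ ^ 2 ≠ 0 := by nlinarith
    positivity
  rw [Metric.tendsto_nhds]
  intro e he
  obtain ⟨s, hs⟩ : ∃ s : ℕ, (2 * J) * (1 / W.eval y₀ * (1 / y₀ ^ 2) ^ s) < e := by
    have : Tendsto (fun s : ℕ => (2 * J) * (1 / W.eval y₀ * (1 / y₀ ^ 2) ^ s)) atTop
        (𝓝 ((2 * J) * (1 / W.eval y₀ * 0))) :=
      ((tendsto_pow_atTop_nhds_zero_of_lt_one (by positivity) (by
        rw [div_lt_one (by positivity)]; nlinarith)).const_mul _).const_mul _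
    rw [mul_zero, mul_zero] at this
    exact (this.eventually (gt_mem_nhds he)).exists
  set c : ℝ := 1 / W.eval y₀ * (1 / y₀ ^ 2) ^ s with hc
  have c0 : 0 ≤ c := by positivity
  set P : ℝ[X] := Polynomial.C c * X ^ (2 * (k + s)) with hP
  have l := H.pw P
  have eP : ∀ y : ℝ, (W * P).eval y = c * (W.eval y * (y ^ 2) ^ (k + s)) := by
    intro y; simp only [hP, eval_mul, eval_C, eval_pow, eval_X, pow_mul]; ring
  have b : I2 (fun y => (W * P).eval y) ≤ 2 * c := by
    have := I2_mono (W * P).continuous (continuous_const (y := c)) (fun y hy => by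
      rw [eP]
      have h1 := W_le hy
      have h2 : (y ^ 2) ^ (k + s) ≤ 1 := pow_le_one₀ (sq_nonneg y) (by nlinarith [hy.1, hy.2])
      have h3 : W.eval y * (y ^ 2) ^ (k + s) ≤ 1 :=
        mul_le_one₀ h1 (by positivity) h2
      nlinarith)
    rwa [I2_const] at this
  have f : ∀ᶠ n in atTop, ∑' i, (W * P).eval (x n i) * p n i < e :=
    l.eventually (gt_mem_nhds (by nlinarith))
  have key : ∀ y ≤ 1, (if y ≤ -y₀ then |y| ^ k else 0) ≤ (W * P).eval y := by
    intro y _
    rw [eP]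
    split_ifs with h
    · have a1 : y₀ ^ 2 ≤ y ^ 2 := by nlinarith
      have a2 : W.eval y₀ ≤ W.eval y := by
        have e : ∀ z : ℝ, (1 - z ^ 2) ^ 2 = (z ^ 2 - 1) ^ 2 := fun z => by ring
        rw [W_eval, W_eval, e, e]
        exact pow_le_pow_left₀ (by nlinarith) (by linarith) 2
      have a3 : (1 : ℝ) ≤ (1 / y₀ ^ 2) ^ s * (y ^ 2) ^ s := by
        rw [← mul_pow]
        refine one_le_pow₀ ?_
        rw [div_mul_eq_mul_div, one_mul, le_div_iff₀ (by positivity), one_mul]
        exact a1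
      have a4 : |y| ^ k ≤ (y ^ 2) ^ k := by
        refine pow_le_pow_left₀ (abs_nonneg y) ?_ k
        have : 1 ≤ |y| := by rw [abs_of_neg (by linarith)]; linarith
        rw [← sq_abs]; nlinarith
      have a5 : (1 : ℝ) ≤ 1 / W.eval y₀ * W.eval y := by
        rw [div_mul_eq_mul_div, one_mul, le_div_iff₀ w0, one_mul]; exact a2
      calc |y| ^ k ≤ (y ^ 2) ^ k := a4
        _ = (1 * 1) * (y ^ 2) ^ k := by ring
        _ ≤ ((1 / W.eval y₀ * W.eval y) * ((1 / y₀ ^ 2) ^ s * (y ^ 2) ^ s)) * (y ^ 2) ^ k := by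
            gcongr
        _ = c * (W.eval y * (y ^ 2) ^ (k + s)) := by rw [hc, pow_add]; ring
    · exact mul_nonneg c0 (mul_nonneg (W_nn y) (by positivity))
  have nn : ∀ y : ℝ, 0 ≤ (if y ≤ -y₀ then |y| ^ k else 0) := fun y => by
    split_ifs <;> positivity
  filter_upwards [f] with n hn
  have s1 : Summable (fun i => (if x n i ≤ -y₀ then |x n i| ^ k else 0) * p n i) :=
    H.dom (F := fun y => if y ≤ -y₀ then |y| ^ k else 0) (W * P) (fun y hy => by
      rw [abs_of_nonneg (nn y)]; exact key y hy) n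
  have g := H.mono (F := fun y => if y ≤ -y₀ then |y| ^ k else 0) s1 ((H.poly (W * P)).1 n) key
  rw [Real.dist_eq, sub_zero, abs_of_nonneg (tsum_nonneg fun i => mul_nonneg (nn _) (H.p0 n i))]
  exact g.trans_lt hn

end

end Pool.Agent.K3h55.PW
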