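import Pool.Agent.K3h55.PW.E1

/-! The distribution function. -/
set_option autoImplicit false
open MeasureTheory Filter Topology Set Polynomial

namespace Pool.Agent.K3h55.PW

noncomputable section

open Polynomial.Chebyshev (T)

variable {ι : Type*} {x p : ℕ → ι → ℝ} {J : ℝ} {d : ℕ → ℝ}

/-- piecewise linear transition from `0` at `y` to `1` at `y + η` -/
def chi (y η t : ℝ) : ℝ := max 0 (min 1 ((t - y) / η))

lemma chi_cont (y η : ℝ) : Continuous (chi y η) := by
  unfold chi
  exact continuous_const.max (continuous_const.min ((continuous_id.sub continuous_const).div_const _))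

lemma chi_nn (y η t : ℝ) : 0 ≤ chi y η t := le_max_left _ _

lemma chi_le (y η t : ℝ) : chi y η t ≤ 1 := max_le zero_le_one (min_le_left _ _)

lemma chi_zero {y η t : ℝ} (hη : 0 < η) (h : t ≤ y) : chi y η t = 0 := by
  unfold chi
  apply max_eq_left
  exact (min_le_right _ _).trans (div_nonpos_of_nonpos_of_nonneg (by linarith) hη.le)

lemma chi_one {y η t : ℝ} (hη : 0 < η) (h : y + η ≤ t) : chi y η t = 1 := by
  unfold chi
  have : 1 ≤ (t - y) / η := by rw [le_div_iff₀ hη]; linarith
  rw [min_eq_left this]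
  exact max_eq_right zero_le_one

/-- the quotient by the weight -/
def KK (y η t : ℝ) : ℝ := chi y η t * ((t + 2) / (4 * (1 + t) ^ 2)) -
  (1 - chi y η t) * ((2 - t) / (4 * (1 - t) ^ 2))

lemma KK_cont {y η : ℝ} (hy : -1 < y) (hη : 0 < η) (h1 : y + η < 1) : Continuous (KK y η) := by
  unfold KK
  refine Continuous.sub ?_ ?_
  · rw [continuous_iff_continuousAt]
    intro t
    rcases lt_or_ge t y with h | h
    · have : (fun t => chi y η t * ((t + 2) / (4 * (1 + t) ^ 2))) =ᶠ[𝓝 t] fun _ => 0 := by
        filter_upwards [gt_mem_nhds h] with s hs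
        rw [chi_zero hη (le_of_lt hs), zero_mul]
      exact continuousAt_const.congr this.symm
    · refine (chi_cont y η).continuousAt.mul (ContinuousAt.div ?_ ?_ ?_)
      · exact (continuous_id.add continuous_const).continuousAt
      · exact (continuous_const.mul ((continuous_const.add continuous_id).pow 2)).continuousAt
      · have : (0 : ℝ) < 1 + t := by linarith
        positivity
  · rw [continuous_iff_continuousAt]
    intro t
    rcases lt_or_ge (y + η) t with h | h
    · have : (fun t => (1 - chi y η t) * ((2 - t) / (4 * (1 - t) ^ 2))) =ᶠ[𝓝 t] fun _ => 0 := by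
        filter_upwards [lt_mem_nhds h] with s hs
        rw [chi_one hη (le_of_lt hs), sub_self, zero_mul]
      exact continuousAt_const.congr this.symm
    · refine (continuous_const.sub (chi_cont y η)).continuousAt.mul (ContinuousAt.div ?_ ?_ ?_)
      · exact (continuous_const.sub continuous_id).continuousAt
      · exact (continuous_const.mul ((continuous_const.sub continuous_id).pow 2)).continuousAt
      · have : (0 : ℝ) < 1 - t := by linarith
        positivity

lemma KK_eq {y η : ℝ} (hy : -1 < y) (hη : 0 < η) (h1 : y + η < 1) (t : ℝ) :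
    chi y η t = (2 + 3 * t - t ^ 3) / 4 + W.eval t * KK y η t := by
  rw [W_eval]
  unfold KK
  rcases eq_or_ne t 1 with h | h
  · subst h
    rw [chi_one hη h1.le]; norm_num
  · rcases eq_or_ne t (-1) with h' | h'
    · subst h'
      rw [chi_zero hη hy.le]; norm_num
    · have e1 : (1 - t) ≠ 0 := sub_ne_zero.2 (Ne.symm h)
      have e2 : (1 + t) ≠ 0 := fun h2 => h' (by linarith)
      field_simp
      ring

lemma KK_bd {y η : ℝ} (hy : -1 < y) (hη : 0 < η) (h1 : y + η < 1) :
    ∃ C, ∀ t ≤ 1, |KK y η t| ≤ C := by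
  obtain ⟨M, hM⟩ := (isCompact_Icc (a := (-2 : ℝ)) (b := 1)).exists_bound_of_continuousOn
    (KK_cont hy hη h1).continuousOn
  refine ⟨max M 1, fun t ht => ?_⟩
  rcases le_or_gt (-2) t with h | h
  · exact (hM t ⟨h, ht⟩).trans (le_max_left _ _)
  · refine le_trans ?_ (le_max_right _ _)
    unfold KK
    rw [chi_zero hη (by linarith), zero_mul, zero_sub, sub_zero, one_mul, abs_neg,
      abs_of_nonneg (div_nonneg (by linarith) (by positivity)), div_le_one (by nlinarith)]
    nlinarith

lemma Dat.chi_lim (H : Dat x p J d) {y η : ℝ} (hy : -1 < y) (hη : 0 < η) (h1 : y + η < 1) :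
    (∀ n, Summable (fun i => chi y η (x n i) * p n i)) ∧
    Tendsto (fun n => (∑' i, chi y η (x n i) * p n i) - 2 / 3 * d n) atTop
      (𝓝 ((1 + I2 (chi y η)) * J)) := by
  obtain ⟨C, hC⟩ := KK_bd hy hη h1
  have cK := KK_cont hy hη h1
  obtain ⟨s1, l1⟩ := H.E1 cK hC
  set Q : ℝ[X] := Polynomial.C (1 / 4 : ℝ) * (Polynomial.C 2 + Polynomial.C 3 * X - X ^ 3) with hQ
  have Qe : ∀ t : ℝ, Q.eval t = (2 + 3 * t - t ^ 3) / 4 := by
    intro t; simp [hQ]; ring
  obtain ⟨s2, l2⟩ := H.poly Q
  have e : ∀ n i, chi y η (x n i) * p n i = Q.eval (x n i) * p n i +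
      (W.eval (x n i) * KK y η (x n i)) * p n i := by
    intro n i
    rw [KK_eq hy hη h1 (x n i), Qe]; ring
  have sc : ∀ n, Summable (fun i => chi y η (x n i) * p n i) := fun n =>
    ((s2 n).add (s1 n)).congr fun i => (e n i).symm
  refine ⟨sc, ?_⟩
  have l3 := l2.add l1
  have e1 : (Q.eval 1 + I2 (fun y => Q.eval y)) * J + I2 (fun t => W.eval t * KK y η t) * J =
      (1 + I2 (chi y η)) * J := by
    have h2 : I2 (chi y η) = I2 (fun y => Q.eval y) + I2 (fun t => W.eval t * KK y η t) := by
      rw [← I2_add (F := fun y => Q.eval y) (G := fun t => W.eval t * KK y η t) Q.continuous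
        (W.continuous.mul cK)]
      congr 1; funext t
      rw [Qe]; exact KK_eq hy hη h1 t
    rw [h2, Qe]; ring
  have e2 : ec Q = 2 / 3 := by unfold ec; rw [Qe, Qe]; norm_num
  rw [e1] at l3
  refine l3.congr fun n => ?_
  have e3 : ∑' i, chi y η (x n i) * p n i = (∑' i, Q.eval (x n i) * p n i) +
      ∑' i, (W.eval (x n i) * KK y η (x n i)) * p n i := by
    rw [← (s2 n).tsum_add (s1 n)]
    exact tsum_congr (e n)
  rw [e3, e2]; ring

lemma chi_I2_le {y η : ℝ} (hy : -1 ≤ y) (hy1 : y ≤ 1) (hη : 0 < η) :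
    I2 (chi y η) ≤ 2 / Real.pi * Real.arccos y := by
  unfold I2
  refine mul_le_mul_of_nonneg_left ?_ (by positivity)
  have ci : ∀ a b : ℝ, IntervalIntegrable (fun θ => chi y η (Real.cos θ)) volume a b := fun a b =>
    ((chi_cont y η).comp Real.continuous_cos).intervalIntegrable _ _
  rw [← intervalIntegral.integral_add_adjacent_intervals (ci 0 (Real.arccos y))
    (ci (Real.arccos y) Real.pi)]
  have e1 : ∫ θ in (Real.arccos y)..Real.pi, chi y η (Real.cos θ) = 0 := by
    rw [intervalIntegral.integral_congr (g := fun _ => (0 : ℝ))]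
    · simp
    · intro θ hθ
      rw [uIcc_of_le (Real.arccos_le_pi y)] at hθ
      refine chi_zero hη ?_
      have := Real.cos_le_cos_of_nonneg_of_le_pi (Real.arccos_nonneg y) hθ.2 hθ.1
      rwa [Real.cos_arccos hy hy1] at this
  have e2 : ∫ θ in (0 : ℝ)..(Real.arccos y), chi y η (Real.cos θ) ≤ Real.arccos y := by
    have := intervalIntegral.integral_mono_on (Real.arccos_nonneg y) (ci 0 (Real.arccos y))
      (intervalIntegrable_const (c := (1 : ℝ))) (fun θ _ => chi_le y η (Real.cos θ))
    simpa using this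
  linarith

lemma le_chi_I2 {y η : ℝ} (hy : -1 ≤ y + η) (hy1 : y + η ≤ 1) (hη : 0 < η) :
    2 / Real.pi * Real.arccos (y + η) ≤ I2 (chi y η) := by
  unfold I2
  refine mul_le_mul_of_nonneg_left ?_ (by positivity)
  have ci : ∀ a b : ℝ, IntervalIntegrable (fun θ => chi y η (Real.cos θ)) volume a b := fun a b =>
    ((chi_cont y η).comp Real.continuous_cos).intervalIntegrable _ _
  rw [← intervalIntegral.integral_add_adjacent_intervals (ci 0 (Real.arccos (y + η)))
    (ci (Real.arccos (y + η)) Real.pi)]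
  have e1 : 0 ≤ ∫ θ in (Real.arccos (y + η))..Real.pi, chi y η (Real.cos θ) :=
    intervalIntegral.integral_nonneg (Real.arccos_le_pi _) fun θ _ => chi_nn y η _
  have e2 : ∫ θ in (0 : ℝ)..(Real.arccos (y + η)), chi y η (Real.cos θ) = Real.arccos (y + η) := by
    rw [intervalIntegral.integral_congr (g := fun _ => (1 : ℝ))]
    · simp
    · intro θ hθ
      rw [uIcc_of_le (Real.arccos_nonneg _)] at hθ
      refine chi_one hη ?_
      have := Real.cos_le_cos_of_nonneg_of_le_pi hθ.1 (Real.arccos_le_pi (y + η)) hθ.2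
      rwa [Real.cos_arccos hy hy1] at this
  linarith

/-- the distribution function between `-1` and `1` -/
theorem Dat.E3 (H : Dat x p J d) {y : ℝ} (hy : -1 < y) (hy1 : y < 1) :
    (∀ n, Summable (fun i => (if y < x n i then 1 else 0) * p n i)) ∧
    Tendsto (fun n => (∑' i, (if y < x n i then 1 else 0) * p n i) - 2 / 3 * d n) atTop
      (𝓝 ((1 + 2 / Real.pi * Real.arccos y) * J)) := by
  have J0 := H.J0
  have s0 : ∀ n, Summable (fun i => (if y < x n i then 1 else 0) * p n i) :=
    H.dom (F := fun t => if y < t then 1 else 0) 1 (fun t _ => by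
      rw [eval_one]; split_ifs <;> norm_num)
  refine ⟨s0, ?_⟩
  rw [Metric.tendsto_nhds]
  intro e he
  -- choose the width
  have ca : Tendsto (fun η : ℝ => (1 + 2 / Real.pi * Real.arccos (y - η)) * J) (𝓝 0)
      (𝓝 ((1 + 2 / Real.pi * Real.arccos y) * J)) := by
    have : Continuous (fun η : ℝ => (1 + 2 / Real.pi * Real.arccos (y - η)) * J) := by fun_prop
    have h2 := this.tendsto 0
    simpa using h2
  have cb : Tendsto (fun η : ℝ => (1 + 2 / Real.pi * Real.arccos (y + η)) * J) (𝓝 0)
      (𝓝 ((1 + 2 / Real.pi * Real.arccos y) * J)) := by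
    have : Continuous (fun η : ℝ => (1 + 2 / Real.pi * Real.arccos (y + η)) * J) := by fun_prop
    have h2 := this.tendsto 0
    simpa using h2
  have k1 := Metric.tendsto_nhds.1 ca (e / 2) (by positivity)
  have k2 := Metric.tendsto_nhds.1 cb (e / 2) (by positivity)
  have k3 : ∀ᶠ η : ℝ in 𝓝 0, -1 < y - η := by
    have : Tendsto (fun η : ℝ => y - η) (𝓝 0) (𝓝 (y - 0)) :=
      (continuous_const.sub continuous_id).tendsto 0
    rw [sub_zero] at this
    exact this.eventually (lt_mem_nhds hy)
  have k4 : ∀ᶠ η : ℝ in 𝓝 0, y + η < 1 := by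
    have : Tendsto (fun η : ℝ => y + η) (𝓝 0) (𝓝 (y + 0)) :=
      (continuous_const.add continuous_id).tendsto 0
    rw [add_zero] at this
    exact this.eventually (gt_mem_nhds hy1)
  obtain ⟨η, ⟨⟨⟨g1, g2⟩, g3⟩, g4⟩, η0⟩ := ((((k1.and k2).and k3).and k4).filter_mono
    (nhdsWithin_le_nhds (s := Ioi 0))).and self_mem_nhdsWithin |>.exists
  have η0' : 0 < η := η0
  obtain ⟨sA, lA⟩ := H.chi_lim (y := y - η) (η := η) g3 η0' (by linarith)
  obtain ⟨sB, lB⟩ := H.chi_lim (y := y) (η := η) hy η0' g4
  rw [Real.dist_eq] at g1 g2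
  have uA : (1 + I2 (chi (y - η) η)) * J < (1 + 2 / Real.pi * Real.arccos y) * J + e / 2 := by
    have h1 := chi_I2_le (y := y - η) (η := η) g3.le (by linarith) η0'
    have h2 := mul_le_mul_of_nonneg_right (add_le_add_right h1 1) J0
    have h3 := (abs_lt.1 g1).2
    linarith
  have uB : (1 + 2 / Real.pi * Real.arccos y) * J - e / 2 < (1 + I2 (chi y η)) * J := by
    have h1 := le_chi_I2 (y := y) (η := η) (by linarith) g4.le η0'
    have h2 := mul_le_mul_of_nonneg_right (add_le_add_right h1 1) J0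
    have h3 := (abs_lt.1 g2).1
    linarith
  have f1 := lA.eventually (gt_mem_nhds uA)
  have f2 := lB.eventually (lt_mem_nhds uB)
  filter_upwards [f1, f2] with n h1 h2
  have m1 := H.mono (F := fun t => if y < t then 1 else 0) (G := chi (y - η) η) (s0 n) (sA n)
    (fun t _ => by
      split_ifs with h
      · rw [chi_one η0' (by linarith)]
      · exact chi_nn _ _ _)
  have m2 := H.mono (F := chi y η) (G := fun t => if y < t then 1 else 0) (sB n) (s0 n)
    (fun t _ => by
      split_ifs with h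
      · exact chi_le _ _ _
      · rw [chi_zero η0' (by linarith)])
  rw [Real.dist_eq, abs_lt]
  constructor <;> linarith

/-- the distribution function below `-1` -/
theorem Dat.E3' (H : Dat x p J d) {y : ℝ} (hy : y < -1) :
    (∀ n, Summable (fun i => (if y < x n i then 1 else 0) * p n i)) ∧
    Tendsto (fun n => (∑' i, (if y < x n i then 1 else 0) * p n i) - d n) atTop
      (𝓝 (3 * J)) := by
  have s0 : ∀ n, Summable (fun i => (if y < x n i then 1 else 0) * p n i) :=
    H.dom (F := fun t => if y < t then 1 else 0) 1 (fun t _ => by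
      rw [eval_one]; split_ifs <;> norm_num)
  refine ⟨s0, ?_⟩
  obtain ⟨s1, l1⟩ := H.poly 1
  have l2 := H.E2 (y₀ := -y) (by linarith) 0
  have l3 := l1.sub l2
  have e1 : ((1 : ℝ[X]).eval 1 + I2 (fun y => (1 : ℝ[X]).eval y)) * J - 0 = 3 * J := by
    simp only [eval_one]
    rw [I2_const]; ring
  rw [e1] at l3
  refine l3.congr fun n => ?_
  have s2 : Summable (fun i => (if x n i ≤ - -y then |x n i| ^ 0 else 0) * p n i) :=
    H.dom (F := fun t => if t ≤ - -y then |t| ^ 0 else 0) 1 (fun t _ => by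
      rw [eval_one]; split_ifs <;> norm_num) n
  have e3 : ∑' i, (1 : ℝ[X]).eval (x n i) * p n i =
      (∑' i, (if y < x n i then 1 else 0) * p n i) +
      ∑' i, (if x n i ≤ - -y then |x n i| ^ 0 else 0) * p n i := by
    rw [← (s0 n).tsum_add s2]
    refine tsum_congr fun i => ?_
    rw [eval_one, neg_neg, pow_zero]
    by_cases h : y < x n i
    · rw [if_pos h, if_neg (not_le.2 h)]; ring
    · rw [if_neg h, if_pos (not_lt.1 h)]; ring
  rw [e3]
  simp only [ec, eval_one]
  ring

/-- individual masses between `-1` and `1` -/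
theorem Dat.E4 (H : Dat x p J d) {a b : ℝ} (ha : -1 < a) (hb : b < 1) {e : ℝ} (he : 0 < e) :
    ∀ᶠ n in atTop, ∀ i, x n i ∈ Icc a b → p n i ≤ e := by
  have J0 := H.J0
  have loc : ∀ y ∈ Icc a b, ∃ η > 0, ∀ᶠ n in atTop, ∀ i, x n i ∈ Ioo (y - η) (y + η) → p n i ≤ e := by
    intro y hy
    have h1 : -1 < y := ha.trans_le hy.1
    have h2 : y < 1 := hy.2.trans_lt hb
    have c : Tendsto (fun η : ℝ => (1 + 2 / Real.pi * Real.arccos (y - η)) * J -
        (1 + 2 / Real.pi * Real.arccos (y + η)) * J) (𝓝 0) (𝓝 0) := by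
      have : Continuous (fun η : ℝ => (1 + 2 / Real.pi * Real.arccos (y - η)) * J -
        (1 + 2 / Real.pi * Real.arccos (y + η)) * J) := by fun_prop
      have h2 := this.tendsto 0
      simpa using h2
    have k1 := c.eventually (gt_mem_nhds he)
    have k3 : ∀ᶠ η : ℝ in 𝓝 0, -1 < y - η := by
      have : Tendsto (fun η : ℝ => y - η) (𝓝 0) (𝓝 (y - 0)) :=
        (continuous_const.sub continuous_id).tendsto 0
      rw [sub_zero] at this
      exact this.eventually (lt_mem_nhds h1)
    have k4 : ∀ᶠ η : ℝ in 𝓝 0, y + η < 1 := by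
      have : Tendsto (fun η : ℝ => y + η) (𝓝 0) (𝓝 (y + 0)) :=
        (continuous_const.add continuous_id).tendsto 0
      rw [add_zero] at this
      exact this.eventually (gt_mem_nhds h2)
    obtain ⟨η, ⟨⟨g1, g3⟩, g4⟩, η0⟩ := (((k1.and k3).and k4).filter_mono
      (nhdsWithin_le_nhds (s := Ioi 0))).and self_mem_nhdsWithin |>.exists
    have η0' : 0 < η := η0
    refine ⟨η, η0', ?_⟩
    obtain ⟨sA, lA⟩ := H.E3 (y := y - η) g3 (by linarith)
    obtain ⟨sB, lB⟩ := H.E3 (y := y + η) (by linarith) g4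
    have l := (lA.sub lB).eventually (gt_mem_nhds g1)
    filter_upwards [l] with n hn i hi
    have s := (sA n).sub (sB n)
    have nn : ∀ i, 0 ≤ (if y - η < x n i then 1 else 0) * p n i -
        (if y + η < x n i then 1 else 0) * p n i := by
      intro i
      rw [← sub_mul]
      refine mul_nonneg ?_ (H.p0 n i)
      split_ifs with q1 q2
      · norm_num
      · norm_num
      · linarith
      · norm_num
    have h3 := s.le_tsum i fun j _ => nn j
    rw [if_pos hi.1, if_neg (by linarith [hi.2])] at h3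
    have h4 := (sA n).tsum_sub (sB n)
    rw [h4] at h3
    linarith
  choose! η η0 hη using loc
  obtain ⟨t, ht, hc⟩ := (isCompact_Icc (a := a) (b := b)).elim_nhds_subcover
    (fun y => Ioo (y - η y) (y + η y)) (fun y hy =>
      Ioo_mem_nhds (by linarith [η0 y hy]) (by linarith [η0 y hy]))
  have := (Filter.eventually_all_finset t).2 fun y hy => hη y (ht y hy)
  filter_upwards [this] with n hn i hi
  obtain ⟨y, hy, hyi⟩ := mem_iUnion₂.1 (hc hi)
  exact hn y hy i hyi

end

end Pool.Agent.K3h55.PW
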