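import Pool.Agent.K3h55.PW.Q

/-! Chebyshev polynomials of `1 + (h²/2) Δ` applied to `φ u²`. -/
set_option autoImplicit false
open MeasureTheory Filter Topology Complex Set
open scoped ContDiff Real Manifold

namespace Pool.Agent.K3h55.PW

open Pool.Agent.W745.RW
open Pool.Agent.TH294.RS (WN F4)
open Pool.Agent.Y265.HY (D4 DD)
open Pool.Agent.Y265.RW (Fam SC tfS tfx tfy Ds Ds_loc Ds_add Ds_cmul SC.cmul WW famW TF.mul_smooth)
open Pool.Agent.Y265.FL (w4 frW)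

noncomputable section

variable {B : Set ℂ} {h : ℕ → ℝ} {U : ℕ → ℤ → ℂ → ℂ}

/-- the real operator `1 + (h²/2) Δ` -/
def Ar (h : ℝ) (g : ℂ → ℝ) (z : ℂ) : ℝ := g z + h ^ 2 / 2 * lap g z

/-- the Chebyshev polynomials of `1 + (h²/2) Δ`, applied to `f` -/
def G (h : ℝ) (f : ℂ → ℝ) : ℕ → ℂ → ℝ
  | 0 => f
  | 1 => Ar h f
  | (j + 2) => fun z => 2 * Ar h (G h f (j + 1)) z - G h f j z

lemma TF.add' {f g : ℂ → ℝ} (hf : TF B f) (hg : TF B g) : TF B (fun z => f z + g z) :=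
  ⟨hf.1.add hg.1, hf.2.1.add hg.2.1, (tsupport_add f g).trans (union_subset hf.2.2 hg.2.2)⟩

lemma TF.cmul' {f : ℂ → ℝ} (hf : TF B f) (c : ℝ) : TF B (fun z => c * f z) :=
  ⟨contDiff_const.mul hf.1, hf.2.1.mul_left, (tsupport_mul_subset_right).trans hf.2.2⟩

lemma TF.lap' {f : ℂ → ℝ} (hf : TF B f) : TF B (lap f) :=
  TF.add' (tfx (tfx hf)) (tfy (tfy hf))

lemma TF.Ar' {f : ℂ → ℝ} (hf : TF B f) (h : ℝ) : TF B (Ar h f) :=
  TF.add' hf (TF.cmul' (TF.lap' hf) (h ^ 2 / 2))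

lemma TF.G2 {f : ℂ → ℝ} (hf : TF B f) (h : ℝ) (j : ℕ) :
    TF B (G h f j) ∧ TF B (G h f (j + 1)) := by
  induction j with
  | zero => exact ⟨hf, TF.Ar' hf h⟩
  | succ j ih =>
    refine ⟨ih.2, ?_⟩
    have := TF.add' (TF.cmul' (TF.Ar' ih.2 h) 2) (TF.cmul' ih.1 (-1))
    have e : G h f (j + 1 + 1) = fun z => 2 * Ar h (G h f (j + 1)) z + (-1) * G h f j z := by
      funext z
      show 2 * Ar h (G h f (j + 1)) z - G h f j z = _
      ring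
    rw [e]; exact this

lemma TF.G' {f : ℂ → ℝ} (hf : TF B f) (h : ℝ) (j : ℕ) : TF B (G h f j) := (TF.G2 hf h j).1

lemma of_fd {g : ℂ → ℝ} (hg : ContDiff ℝ ∞ g) (z v : ℂ) :
    fderiv ℝ (fun z => (g z : ℂ)) z v = ((fderiv ℝ g z v : ℝ) : ℂ) := by
  have h1 := (Complex.ofRealCLM.hasFDerivAt.comp z (hg.differentiable (by simp) z).hasFDerivAt).fderiv
  change fderiv ℝ (fun z => (g z : ℂ)) z = _ at h1
  rw [h1]; rfl

lemma lap_of {g : ℂ → ℝ} (hg : ContDiff ℝ ∞ g) (z : ℂ) :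
    lap (fun z => (g z : ℂ)) z = ((lap g z : ℝ) : ℂ) := by
  have hx : ContDiff ℝ ∞ (dx g) := (hg.fderiv_right (m := ∞) (by simp)).clm_apply contDiff_const
  have hy : ContDiff ℝ ∞ (dy g) := (hg.fderiv_right (m := ∞) (by simp)).clm_apply contDiff_const
  have e1 : dx (fun z => (g z : ℂ)) = fun z => ((dx g z : ℝ) : ℂ) := funext fun z => of_fd hg z 1
  have e2 : dy (fun z => (g z : ℂ)) = fun z => ((dy g z : ℝ) : ℂ) := funext fun z => of_fd hg z I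
  simp only [lap]
  rw [e1, e2]
  have e3 : dx (fun z => ((dx g z : ℝ) : ℂ)) z = ((dx (dx g) z : ℝ) : ℂ) := of_fd hx z 1
  have e4 : dy (fun z => ((dy g z : ℝ) : ℂ)) z = ((dy (dy g) z : ℝ) : ℂ) := of_fd hy z I
  rw [e3, e4]; push_cast; rfl

lemma Ar_of {g : ℂ → ℝ} (hg : ContDiff ℝ ∞ g) (h : ℝ) (z : ℂ) :
    ((Ar h g z : ℝ) : ℂ) = Ao h (fun z => (g z : ℂ)) z := by
  simp only [Ar, Ao]
  rw [lap_of hg]; push_cast; rfl

lemma Ao_add {f g : ℂ → ℂ} (hf : ContDiff ℝ ∞ f) (hg : ContDiff ℝ ∞ g) (h : ℝ) (z : ℂ) :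
    Ao h (fun z => f z + g z) z = Ao h f z + Ao h g z := by
  have e1 := lap_Ds (hf.add hg) h z
  have e2 := lap_Ds hf h z
  have e3 := lap_Ds hg h z
  have e4 : Ds h (-1) (fun x => f x + g x) = fun z => Ds h (-1) f z + Ds h (-1) g z := by
    funext z; exact Ds_add hf hg h (-1) z
  have ds : ∀ {f : ℂ → ℂ}, ContDiff ℝ ∞ f → ContDiff ℝ ∞ (Ds h (-1) f) := fun hf =>
    contDiff_const.mul ((Pool.Agent.Y265.RW.dx_smooth' hf).add
      (contDiff_const.mul (Pool.Agent.Y265.RW.dy_smooth' hf)))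
  rw [e4, Ds_add (ds hf) (ds hg)] at e1
  simp only [Ao]
  linear_combination (1 / 2 : ℂ) * (e1 - e2 - e3)

lemma Ao_cmul {f : ℂ → ℂ} (hf : ContDiff ℝ ∞ f) (c : ℂ) (h : ℝ) (z : ℂ) :
    Ao h (fun z => c * f z) z = c * Ao h f z := by
  have e1 := lap_Ds (contDiff_const.mul hf : ContDiff ℝ ∞ (fun z => c * f z)) h z
  have e2 := lap_Ds hf h z
  have e4 : Ds h (-1) (fun z => c * f z) = fun z => c * Ds h (-1) f z := by
    funext z; exact Ds_cmul hf h (-1) c z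
  have ds : ContDiff ℝ ∞ (Ds h (-1) f) :=
    contDiff_const.mul ((Pool.Agent.Y265.RW.dx_smooth' hf).add
      (contDiff_const.mul (Pool.Agent.Y265.RW.dy_smooth' hf)))
  rw [e4, Ds_cmul ds] at e1
  simp only [Ao]
  linear_combination (1 / 2 : ℂ) * (e1 - c * e2)

/-- `T_j(1 + (h²/2) Δ) (φ U_0²) = (-1)^j φ U_j U_{-j}` up to error terms -/
lemma G_exp (hB : IsOpen B) (hU : Fam B h U) {φ : ℂ → ℝ} (hφ : TF B φ) {f : ℕ → ℂ → ℝ}
    (tf : ∀ n, TF B (f n)) (hf : ∀ n z, ((f n z : ℝ) : ℂ) = (φ z : ℂ) * (U n 0 z * U n 0 z)) (j : ℕ) :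
    (∃ Q, QE B h U Q ∧ ∀ n z, ((G (h n) (f n) j z : ℝ) : ℂ) =
      (-1) ^ j * ((φ z : ℂ) * (U n j z * U n (-j) z)) + Q n z) ∧
    (∃ Q, QE B h U Q ∧ ∀ n z, ((G (h n) (f n) (j + 1) z : ℝ) : ℂ) =
      (-1) ^ (j + 1) * ((φ z : ℂ) * (U n (j + 1 : ℕ) z * U n (-(j + 1 : ℕ)) z)) + Q n z) := by
  have s0 : ∀ a b n, ContDiff ℝ ∞ (fun z => (φ z : ℂ) * (U n a z * U n b z)) := fun a b n =>
    (tfS hB hφ ((hU.smooth n a).mul (hU.smooth n b))).1
  induction j with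
  | zero =>
    refine ⟨⟨_, ((QE.mk (h := h) (U := U) hφ 0 0).cmul 0), fun n z => ?_⟩, ?_⟩
    · simp only [G, Nat.cast_zero, neg_zero, pow_zero, one_mul, zero_mul, add_zero]
      exact hf n z
    · obtain ⟨Q, hQ, hQ'⟩ := ao_prod hB hU hφ 0 0
      refine ⟨Q, hQ, fun n z => ?_⟩
      have e1 : (fun z => ((f n z : ℝ) : ℂ)) = fun z => (φ z : ℂ) * (U n 0 z * U n 0 z) :=
        funext (hf n)
      show ((Ar (h n) (f n) z : ℝ) : ℂ) = _
      rw [Ar_of (tf n).1, e1, hQ' n z]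
      simp only [Nat.cast_one, zero_add, zero_sub, pow_one]
      ring
  | succ j ih =>
    refine ⟨ih.2, ?_⟩
    obtain ⟨⟨Q, hQ, hQ'⟩, ⟨R, hR, hR'⟩⟩ := ih
    obtain ⟨S, hS, hS'⟩ := ao_prod hB hU hφ ((j + 1 : ℕ) : ℤ) (-((j + 1 : ℕ) : ℤ))
    refine ⟨_, (((hS.cmul ((-1) ^ (j + 1))).add (hR.ao hB hU)).cmul 2).sub hQ, fun n z => ?_⟩
    have e1 : (fun z => ((G (h n) (f n) (j + 1) z : ℝ) : ℂ)) = fun z =>
        (-1) ^ (j + 1) * ((φ z : ℂ) * (U n (j + 1 : ℕ) z * U n (-(j + 1 : ℕ)) z)) + R n z :=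
      funext (hR' n)
    have e2 : ((G (h n) (f n) (j + 1 + 1) z : ℝ) : ℂ) =
        2 * ((Ar (h n) (G (h n) (f n) (j + 1)) z : ℝ) : ℂ) - ((G (h n) (f n) j z : ℝ) : ℂ) := by
      show ((2 * Ar (h n) (G (h n) (f n) (j + 1)) z - G (h n) (f n) j z : ℝ) : ℂ) = _
      push_cast; ring
    rw [e2, Ar_of (TF.G' (tf n) (h n) (j + 1)).1, e1, hQ' n z,
      Ao_add (contDiff_const.mul (s0 _ _ n)) (hR.sm hB hU n), Ao_cmul (s0 _ _ n), hS' n z]
    have c1 : ((j + 1 : ℕ) : ℤ) + 1 = ((j + 1 + 1 : ℕ) : ℤ) := by push_cast; ring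
    have c2 : -((j + 1 : ℕ) : ℤ) - 1 = -((j + 1 + 1 : ℕ) : ℤ) := by push_cast; ring
    have c3 : ((j + 1 : ℕ) : ℤ) - 1 = ((j : ℕ) : ℤ) := by push_cast; ring
    have c4 : -((j + 1 : ℕ) : ℤ) + 1 = -((j : ℕ) : ℤ) := by push_cast; ring
    rw [c1, c2, c3, c4]
    have p1 : (-1 : ℂ) ^ (j + 1) = - (-1) ^ j := by rw [pow_succ]; ring
    have p2 : (-1 : ℂ) ^ (j + 1 + 1) = (-1) ^ j := by rw [pow_succ, pow_succ]; ring
    rw [p1, p2]
    ring

lemma QE.null (hB : IsOpen B) {u : ℕ → ℂ → ℝ} (hS : Sys B h u) {φ : ℂ → ℝ} (hφ : TF B φ)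
    {f : ℕ → ℂ → ℂ} (hf : QE B h (WW h u) f) :
    Tendsto (fun n => ∫ z, f n z * ((φ z : ℂ) * (WW h u n 0 z * WW h u n 0 z))) atTop (𝓝 0) := by
  have hU := famW hB hS
  have sc : ∀ n, SC (fun z => (φ z : ℂ) * (WW h u n 0 z * WW h u n 0 z)) := fun n =>
    tfS hB hφ ((hU.smooth n 0).mul (hU.smooth n 0))
  have ii : ∀ {f : ℕ → ℂ → ℂ}, QE B h (WW h u) f → ∀ n,
      Integrable (fun z => f n z * ((φ z : ℂ) * (WW h u n 0 z * WW h u n 0 z))) := by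
    intro f hf n
    have := ((sc n).mul (hf.sm hB hU n)).int
    refine this.congr (Eventually.of_forall fun z => ?_)
    show _ * f n z = f n z * _
    ring
  induction hf with
  | @mk ψ hψ a b =>
    have t : TF B (fun z => ψ z * φ z) := TF.mul_smooth hφ hψ.1
    have := (w4 hB hS a b 0 0).nul _ t
    refine Tendsto.congr (fun n => ?_) this
    congr 1; funext z
    push_cast; ring
  | @hmul f hf ih =>
    have h1 : Tendsto (fun n => ((h n : ℝ) : ℂ)) atTop (𝓝 ((0 : ℝ) : ℂ)) :=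
      (Complex.continuous_ofReal.tendsto 0).comp hS.hlim
    have h2 := h1.mul ih
    rw [mul_zero] at h2
    refine h2.congr fun n => ?_
    rw [← integral_const_mul]
    congr 1; funext z; ring
  | @cmul f c hf ih =>
    have h2 := ih.const_mul c
    rw [mul_zero] at h2
    refine h2.congr fun n => ?_
    rw [← integral_const_mul]
    congr 1; funext z; ring
  | @add f g hf hg ih1 ih2 =>
    have h2 := ih1.add ih2
    rw [add_zero] at h2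
    refine h2.congr fun n => ?_
    rw [← integral_add (ii hf n) (ii hg n)]
    congr 1; funext z; ring
  | @cg f g hf e ih =>
    refine ih.congr fun n => ?_
    congr 1; funext z; rw [e n z]

end

end Pool.Agent.K3h55.PW
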