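import Pool.Agent.K3h55.PW.G

/-! The Chebyshev moments. -/
set_option autoImplicit false
open MeasureTheory Filter Topology Complex Set
open scoped ContDiff Real Manifold

namespace Pool.Agent.K3h55.PW

open Pool.Agent.W745.RW
open Pool.Agent.TH294.RS (WN F4)
open Pool.Agent.Y265.HY (D4 DD)
open Pool.Agent.Y265.RW (Fam SC tfS tfx tfy Ds Ds_loc Ds_add Ds_cmul SC.cmul WW famW TF.mul_smooth)
open Pool.Agent.Y265.FL (w4 frW)

noncomputable section

variable {B : Set ℂ} {h : ℕ → ℝ}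

lemma eps_j (j : ℕ) : (-1 : ℂ) ^ j * eps (j : ℤ) (-(j : ℤ)) 0 0 = (((2 + (-1) ^ j) / 3 : ℝ) : ℂ) := by
  unfold eps
  rcases Nat.even_or_odd j with hj | hj
  · obtain ⟨k, hk⟩ := hj
    rw [if_pos (by omega), (show Even j from ⟨k, hk⟩).neg_one_pow,
      (show Even j from ⟨k, hk⟩).neg_one_pow]
    norm_num
  · obtain ⟨k, hk⟩ := hj
    rw [if_neg (by omega), (show Odd j from ⟨k, hk⟩).neg_one_pow,
      (show Odd j from ⟨k, hk⟩).neg_one_pow]
    norm_num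

lemma GG_j (j : ℕ) : (-1 : ℂ) ^ j * GG (j : ℤ) (-(j : ℤ)) 0 0 =
    (((if j = 0 then 3 else 1) : ℝ) : ℂ) := by
  unfold GG CC
  rw [if_pos (by omega : (j : ℤ) + -(j : ℤ) = 0), if_pos (by norm_num : (0 : ℤ) + 0 = 0)]
  have e : (-1 : ℂ) ^ j * (-1) ^ j = 1 := by
    rw [← mul_pow]; norm_num
  by_cases hj : j = 0
  · subst hj; norm_num
  · have h1 : ¬ ((j : ℤ) + 0 = 0) := by omega
    rw [if_neg h1, if_neg hj]
    simp only [Int.natAbs_natCast, Int.natAbs_zero, pow_zero, mul_one, zero_mul, add_zero]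
    rw [e]; norm_num

/-- the Chebyshev moments of `φ u²` -/
theorem cheb_mom (hB : IsOpen B) {u : ℕ → ℂ → ℝ} (hS : Sys B h u) {φ : ℂ → ℝ} (hφ : TF B φ)
    (tf : ∀ n, TF B (fun z => φ z * u n z ^ 2)) (j : ℕ) :
    Tendsto (fun n => (∫ z, G (h n) (fun z => φ z * u n z ^ 2) j z * (φ z * u n z ^ 2)) -
      (if j = 0 then 3 else 1) * (∫ z, φ z ^ 2) -
      (2 + (-1) ^ j) / 3 * ((∫ z, φ z ^ 2 * u n z ^ 4) - 3 * ∫ z, φ z ^ 2)) atTop (𝓝 0) := by
  have hU := famW hB hS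
  have tφ : TF B (fun z => φ z ^ 2) := by
    have := TF.mul_smooth hφ hφ.1
    simpa only [sq] using this
  have hf : ∀ n z, (((fun n z => φ z * u n z ^ 2) n z : ℝ) : ℂ) =
      (φ z : ℂ) * (WW h u n 0 z * WW h u n 0 z) := fun n z => by
    have : WW h u n 0 z = (u n z : ℂ) := rfl
    rw [this]; push_cast; ring
  obtain ⟨⟨Q, hQ, hQ'⟩, -⟩ := G_exp hB hU hφ (f := fun n z => φ z * u n z ^ 2) tf hf j
  have n1 := QE.null hB hS hφ hQ
  have DDr : DD (D4 (fun k n => WW h u n k) (fun z => φ z ^ 2)) := (frW hB hS).dd _ tφ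
  have h1 := DDr.even (j : ℤ) (-(j : ℤ)) 0 0 0 (by ring)
  have h2 : Tendsto (fun n => (-1 : ℂ) ^ j * (D4 (fun k n => WW h u n k) (fun z => φ z ^ 2)
      (j : ℤ) (-(j : ℤ)) 0 0 n - eps (j : ℤ) (-(j : ℤ)) 0 0 *
      D4 (fun k n => WW h u n k) (fun z => φ z ^ 2) (2 * 0) 0 0 0 n)) atTop (𝓝 0) := by
    have := Tendsto.const_mul ((-1 : ℂ) ^ j) h1
    rw [show ((-1 : ℂ) ^ j * 0) = 0 from mul_zero _] at this
    exact this
  have h3 := h2.add n1
  rw [add_zero] at h3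
  have h4 := (Complex.continuous_re.tendsto _).comp h3
  rw [Complex.zero_re] at h4
  refine h4.congr fun n => ?_
  simp only [Function.comp_def]
  have g3 : GG (2 * 0) 0 0 0 = 3 := by simp [GG, CC]; norm_num
  have sc : ∀ a b, SC (fun z => (φ z : ℂ) * (WW h u n a z * WW h u n b z)) := fun a b =>
    tfS hB hφ ((hU.smooth n a).mul (hU.smooth n b))
  -- the fourth moment
  have m4 : ∫ z, ((φ z ^ 2 : ℝ) : ℂ) * F4 (fun k n => WW h u n k) (2 * 0) 0 0 0 n z =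
      ((∫ z, φ z ^ 2 * u n z ^ 4 : ℝ) : ℂ) := by
    rw [← integral_complex_ofReal]
    congr 1; funext z
    have : WW h u n 0 z = (u n z : ℂ) := rfl
    simp only [F4, mul_zero, this]
    push_cast; ring
  have mG : ((∫ z, G (h n) (fun z => φ z * u n z ^ 2) j z * (φ z * u n z ^ 2) : ℝ) : ℂ) =
      (-1) ^ j * (∫ z, ((φ z ^ 2 : ℝ) : ℂ) *
        F4 (fun k n => WW h u n k) (j : ℤ) (-(j : ℤ)) 0 0 n z) +
      ∫ z, Q n z * ((φ z : ℂ) * (WW h u n 0 z * WW h u n 0 z)) := by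
    rw [← integral_complex_ofReal, ← integral_const_mul]
    have i1 : Integrable (fun z => (-1 : ℂ) ^ j * (((φ z ^ 2 : ℝ) : ℂ) *
        F4 (fun k n => WW h u n k) (j : ℤ) (-(j : ℤ)) 0 0 n z)) := by
      refine ((((sc j (-j)).mul (sc 0 0).1).int).const_mul ((-1 : ℂ) ^ j)).congr
        (Eventually.of_forall fun z => ?_)
      simp only [F4]
      push_cast; ring
    have i2 : Integrable (fun z => Q n z * ((φ z : ℂ) * (WW h u n 0 z * WW h u n 0 z))) := by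
      refine ((sc 0 0).mul (hQ.sm hB hU n)).int.congr (Eventually.of_forall fun z => ?_)
      show _ * Q n z = Q n z * _
      ring
    rw [← integral_add i1 i2]
    congr 1; funext z
    have e0 : ((φ z * u n z ^ 2 : ℝ) : ℂ) = (φ z : ℂ) * (WW h u n 0 z * WW h u n 0 z) := hf n z
    rw [Complex.ofReal_mul, e0]
    have e1 := hQ' n z
    rw [e1]
    simp only [F4]
    push_cast; ring
  have e1 := eps_j j
  have e2 := GG_j j
  have key : (-1 : ℂ) ^ j * (D4 (fun k n => WW h u n k) (fun z => φ z ^ 2)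
      (j : ℤ) (-(j : ℤ)) 0 0 n - eps (j : ℤ) (-(j : ℤ)) 0 0 *
      D4 (fun k n => WW h u n k) (fun z => φ z ^ 2) (2 * 0) 0 0 0 n) +
      (∫ z, Q n z * ((φ z : ℂ) * (WW h u n 0 z * WW h u n 0 z))) =
      (((∫ z, G (h n) (fun z => φ z * u n z ^ 2) j z * (φ z * u n z ^ 2)) -
      (if j = 0 then 3 else 1) * (∫ z, φ z ^ 2) -
      (2 + (-1) ^ j) / 3 * ((∫ z, φ z ^ 2 * u n z ^ 4) - 3 * ∫ z, φ z ^ 2) : ℝ) : ℂ) := by
    have r1 : ∀ a b c d : ℝ, ((a - b * c - d : ℝ) : ℂ) = (a : ℂ) - (b : ℂ) * (c : ℂ) - (d : ℂ) := by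
      intro a b c d; push_cast; ring
    rw [r1, mG, ← e2, Complex.ofReal_mul, ← e1, Complex.ofReal_sub, Complex.ofReal_mul, ← m4]
    simp only [D4]
    rw [g3]
    push_cast
    ring
  rw [key, Complex.ofReal_re]

end

end Pool.Agent.K3h55.PW
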