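import Pool.Agent.K3h55.PW.G

/-! Expansions in an orthonormal basis of eigenfunctions. -/
set_option autoImplicit false
open MeasureTheory Filter Topology Complex Set
open scoped ContDiff Real Manifold RealInnerProductSpace

namespace Pool.Agent.K3h55.PW

open Pool.Agent.W745.RW
open Pool.Agent.TH294.RS (TF.mulc)
open Pool.Agent.Y265.RW (tfx tfy TF.mul_smooth)

noncomputable section

variable {Ω : Set ℂ} {ι : Type*}

/-- the coefficient of `g` -/
def cf (Ω : Set ℂ) (V : ι → ℂ → ℝ) (g : ℂ → ℝ) (i : ι) : ℝ := ∫ z in Ω, g z * V i z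

/-- integration by parts for a test function and a function which is smooth on `Ω` -/
lemma ipart (hΩ : IsOpen Ω) {g F : ℂ → ℝ} (hg : TF Ω g) (hF : ContDiffOn ℝ ∞ F Ω) (v : ℂ) :
    ∫ z, fderiv ℝ g z v * F z = - ∫ z, g z * fderiv ℝ F z v := by
  have tP : TF Ω (fun z => g z * F z) := TF.mulc hΩ hg hF
  have tv : TF Ω (fun z => fderiv ℝ g z v) := Pool.Agent.Y265.RW.tfd hg v
  have hd : ContDiffOn ℝ ∞ (fun z => fderiv ℝ F z v) Ω :=
    (hF.fderiv_of_isOpen hΩ (by simp)).clm_apply contDiffOn_const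
  have int_of : ∀ {f : ℂ → ℝ}, TF Ω f → Integrable f := fun hf =>
    hf.1.continuous.integrable_of_hasCompactSupport hf.2.1
  have i1 : Integrable (fun z => fderiv ℝ g z v * F z) := int_of (TF.mulc hΩ tv hF)
  have i2 : Integrable (fun z => g z * fderiv ℝ F z v) := int_of (TF.mulc hΩ hg hd)
  have e : ∀ z, fderiv ℝ (fun z => g z * F z) z v = fderiv ℝ g z v * F z + g z * fderiv ℝ F z v := by
    intro z
    by_cases hz : z ∈ Ω
    · have d1 : HasFDerivAt g (fderiv ℝ g z) z := (hg.1.differentiable (by simp) z).hasFDerivAt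
      have d2 : HasFDerivAt F (fderiv ℝ F z) z :=
        ((hF.contDiffAt (hΩ.mem_nhds hz)).differentiableAt (by simp)).hasFDerivAt
      have d3 := (d1.mul d2).fderiv
      change fderiv ℝ (fun z => g z * F z) z = _ at d3
      rw [d3]
      simp
      ring
    · have h0 : g =ᶠ[𝓝 z] 0 := notMem_tsupport_iff_eventuallyEq.1 (fun h => hz (hg.2.2 h))
      have h1 : (fun z => g z * F z) =ᶠ[𝓝 z] fun _ => 0 := by
        filter_upwards [h0] with w hw
        simp [hw]
      have e1 : g z = 0 := h0.eq_of_nhds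
      have e2 : fderiv ℝ g z = 0 := by
        rw [h0.fderiv_eq]; simp
      rw [h1.fderiv_eq]
      simp [e1, e2]
  have key : ∫ z, fderiv ℝ (fun z => g z * F z) z v = 0 := by
    have := integral_mul_fderiv_eq_neg_fderiv_mul_of_integrable (μ := (volume : Measure ℂ))
      (f := fun z => g z * F z) (g := fun _ : ℂ => (1 : ℝ)) (v := v) (𝕜 := ℝ)
      (by simpa using int_of (Pool.Agent.Y265.RW.tfd tP v))
      (by simp) (by simpa using int_of tP)
      (fun x _ => tP.1.differentiable (by simp) x) (fun x _ => differentiableAt_const _)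
    simp only [fderiv_fun_const, Pi.zero_apply, _root_.zero_apply, mul_zero, integral_zero,
      mul_one] at this
    linarith
  simp only [e] at key
  rw [integral_add i1 i2] at key
  linarith

lemma set_int {g F : ℂ → ℝ} (hg : TF Ω g) :
    ∫ z in Ω, g z * F z = ∫ z, g z * F z := by
  refine setIntegral_eq_integral_of_forall_compl_eq_zero (fun z hz => ?_)
  rw [Pool.Agent.Y265.RW.TF.zero hg hz, zero_mul]

/-- Green's formula -/
lemma green (hΩ : IsOpen Ω) {V : ι → ℂ → ℝ} {μ : ι → ℝ} (sV : ∀ i, ContDiffOn ℝ ∞ (V i) Ω)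
    (eV : ∀ i, ∀ z ∈ Ω, lap (V i) z + μ i * V i z = 0) {g : ℂ → ℝ} (hg : TF Ω g) (i : ι) :
    cf Ω V (lap g) i = - μ i * cf Ω V g i := by
  have sd : ∀ v : ℂ, ContDiffOn ℝ ∞ (fun z => fderiv ℝ (V i) z v) Ω := fun v =>
    ((sV i).fderiv_of_isOpen hΩ (by simp)).clm_apply contDiffOn_const
  have sdd : ∀ v : ℂ, ContDiffOn ℝ ∞ (fun z => fderiv ℝ (fun z => fderiv ℝ (V i) z v) z v) Ω :=
    fun v => ((sd v).fderiv_of_isOpen hΩ (by simp)).clm_apply contDiffOn_const
  have int_of : ∀ {f : ℂ → ℝ}, TF Ω f → Integrable f := fun hf =>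
    hf.1.continuous.integrable_of_hasCompactSupport hf.2.1
  have k1 : ∀ v : ℂ, ∫ z, fderiv ℝ (fun z => fderiv ℝ g z v) z v * V i z =
      ∫ z, g z * fderiv ℝ (fun z => fderiv ℝ (V i) z v) z v := by
    intro v
    rw [ipart hΩ (Pool.Agent.Y265.RW.tfd hg v) (sV i) v, ipart hΩ hg (sd v) v, neg_neg]
  have t2 : ∀ v : ℂ, TF Ω (fun z => fderiv ℝ (fun z => fderiv ℝ g z v) z v) := fun v =>
    Pool.Agent.Y265.RW.tfd (Pool.Agent.Y265.RW.tfd hg v) v
  unfold cf
  rw [set_int (TF.lap' hg), set_int hg]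
  have e1 : ∫ z, lap g z * V i z = (∫ z, fderiv ℝ (fun z => fderiv ℝ g z 1) z 1 * V i z) +
      ∫ z, fderiv ℝ (fun z => fderiv ℝ g z I) z I * V i z := by
    rw [← integral_add (int_of (TF.mulc hΩ (t2 1) (sV i))) (int_of (TF.mulc hΩ (t2 I) (sV i)))]
    congr 1; funext z
    change (fderiv ℝ (fun z => fderiv ℝ g z 1) z 1 + fderiv ℝ (fun z => fderiv ℝ g z I) z I) *
      V i z = _
    ring
  rw [e1, k1, k1, ← integral_add (int_of (TF.mulc hΩ hg (sdd 1))) (int_of (TF.mulc hΩ hg (sdd I))),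
    ← integral_const_mul]
  congr 1; funext z
  by_cases hz : z ∈ Ω
  · have := eV i z hz
    change (fderiv ℝ (fun z => fderiv ℝ (V i) z 1) z 1 +
      fderiv ℝ (fun z => fderiv ℝ (V i) z I) z I) + μ i * V i z = 0 at this
    linear_combination g z * this
  · rw [Pool.Agent.Y265.RW.TF.zero hg hz]; ring

lemma memLp {g : ℂ → ℝ} (hg : TF Ω g) : MemLp g 2 (volume.restrict Ω) :=
  (hg.1.continuous.memLp_of_hasCompactSupport hg.2.1).restrict Ω

lemma inner_cf {b : HilbertBasis ι ℝ (Lp ℝ 2 (volume.restrict Ω))} {V : ι → ℂ → ℝ}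
    (hb : ∀ i, (b i : ℂ → ℝ) =ᵐ[volume.restrict Ω] V i) {g : ℂ → ℝ} (hg : TF Ω g) (i : ι) :
    ⟪b i, (memLp hg).toLp g⟫ = cf Ω V g i := by
  rw [MeasureTheory.L2.inner_def]
  unfold cf
  refine integral_congr_ae ?_
  filter_upwards [hb i, (memLp hg).coeFn_toLp] with z h1 h2
  rw [h1, h2]
  simp

/-- Parseval's formula for test functions -/
lemma parseval {b : HilbertBasis ι ℝ (Lp ℝ 2 (volume.restrict Ω))}
    {V : ι → ℂ → ℝ} (hb : ∀ i, (b i : ℂ → ℝ) =ᵐ[volume.restrict Ω] V i) {f g : ℂ → ℝ}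
    (hf : TF Ω f) (hg : TF Ω g) :
    HasSum (fun i => cf Ω V f i * cf Ω V g i) (∫ z, f z * g z) := by
  have h1 := b.hasSum_inner_mul_inner ((memLp hf).toLp f) ((memLp hg).toLp g)
  have e1 : ⟪(memLp hf).toLp f, (memLp hg).toLp g⟫ = ∫ z, f z * g z := by
    rw [MeasureTheory.L2.inner_def, ← set_int hf]
    refine integral_congr_ae ?_
    filter_upwards [(memLp hf).coeFn_toLp, (memLp hg).coeFn_toLp] with z h1 h2
    rw [h1, h2]
    simp [mul_comm]
  rw [e1] at h1
  refine h1.congr_fun fun i => ?_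
  rw [real_inner_comm, inner_cf hb hf, inner_cf hb hg]

end

end Pool.Agent.K3h55.PW
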