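import Pool.Agent.Y265.FL.B

/-! Polynomials in the Laplacian applied to `φ u²` in the plane; error terms. -/
set_option autoImplicit false
open MeasureTheory Filter Topology Complex Set
open scoped ContDiff Real Manifold

namespace Pool.Agent.K3h55.PW

open Pool.Agent.W745.RW
open Pool.Agent.TH294.RS (WN F4)
open Pool.Agent.Y265.HY (D4 DD)
open Pool.Agent.Y265.RW (Fam SC tfS tfx tfy Ds Ds_loc Ds_add Ds_cmul SC.cmul)
open Pool.Agent.Y265.FL (w4 frW)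

noncomputable section

variable {B : Set ℂ} {h : ℕ → ℝ} {U : ℕ → ℤ → ℂ → ℂ}

/-- localised quadratic terms with a factor `h` -/
inductive QE (B : Set ℂ) (h : ℕ → ℝ) (U : ℕ → ℤ → ℂ → ℂ) : (ℕ → ℂ → ℂ) → Prop
  | mk {ψ : ℂ → ℝ} (hψ : TF B ψ) (a b : ℤ) :
      QE B h U (fun n z => (h n : ℂ) * ((ψ z : ℂ) * (U n a z * U n b z)))
  | hmul {f : ℕ → ℂ → ℂ} (hf : QE B h U f) : QE B h U (fun n z => (h n : ℂ) * f n z)
  | cmul {f : ℕ → ℂ → ℂ} (c : ℂ) (hf : QE B h U f) : QE B h U (fun n z => c * f n z)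
  | add {f g : ℕ → ℂ → ℂ} (hf : QE B h U f) (hg : QE B h U g) : QE B h U (fun n z => f n z + g n z)
  | cg {f g : ℕ → ℂ → ℂ} (hf : QE B h U f) (e : ∀ n z, g n z = f n z) : QE B h U g

lemma QE.sub {f g : ℕ → ℂ → ℂ} (hf : QE B h U f) (hg : QE B h U g) :
    QE B h U (fun n z => f n z - g n z) :=
  (hf.add (hg.cmul (-1))).cg fun n z => by ring

lemma QE.sm (hB : IsOpen B) (hU : Fam B h U) {f : ℕ → ℂ → ℂ} (hf : QE B h U f) (n : ℕ) :
    ContDiff ℝ ∞ (f n) := by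
  induction hf with
  | mk hψ a b => exact contDiff_const.mul (tfS hB hψ ((hU.smooth n a).mul (hU.smooth n b))).1
  | hmul _ ih => exact contDiff_const.mul ih
  | cmul c _ ih => exact contDiff_const.mul ih
  | add _ _ ih1 ih2 => exact ih1.add ih2
  | @cg f g _ e ih => rwa [show g n = f n from funext (e n)]

lemma QE.ds (hB : IsOpen B) (hU : Fam B h U) {s : ℤ} (hs : s = 1 ∨ s = -1) {f : ℕ → ℂ → ℂ}
    (hf : QE B h U f) : QE B h U (fun n z => Ds (h n) s (f n) z) := by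
  induction hf with
  | @mk ψ hψ a b =>
    have s0 : ∀ n, ContDiff ℝ ∞ (fun z => (ψ z : ℂ) * (U n a z * U n b z)) := fun n =>
      (tfS hB hψ ((hU.smooth n a).mul (hU.smooth n b))).1
    refine ((((QE.mk (tfx hψ) a b).hmul.add ((QE.mk (tfy hψ) a b).hmul.cmul (s * I))).add
      ((QE.mk hψ (a - s) b).cmul (-s))).add ((QE.mk hψ a (b - s)).cmul (-s))).cg fun n z => ?_
    show Ds (h n) s (fun z => (h n : ℂ) * ((ψ z : ℂ) * (U n a z * U n b z))) z = _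
    rw [Ds_cmul (s0 n), Ds_loc hB hU hU hs hψ n a b z]
    ring
  | @hmul f hf ih =>
    refine ih.hmul.cg fun n z => ?_
    show Ds (h n) s (fun z => (h n : ℂ) * f n z) z = _
    rw [Ds_cmul (hf.sm hB hU n)]
  | @cmul f c hf ih =>
    refine (ih.cmul c).cg fun n z => ?_
    show Ds (h n) s (fun z => c * f n z) z = _
    rw [Ds_cmul (hf.sm hB hU n)]
  | @add f g hf hg ih1 ih2 =>
    refine (ih1.add ih2).cg fun n z => ?_
    show Ds (h n) s (fun z => f n z + g n z) z = _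
    rw [Ds_add (hf.sm hB hU n) (hg.sm hB hU n)]
  | @cg f g hf e ih =>
    refine ih.cg fun n z => ?_
    rw [show g n = f n from funext (e n)]

/-- the operator `1 + (h²/2) Δ` -/
def Ao (h : ℝ) (f : ℂ → ℂ) (z : ℂ) : ℂ := f z + (h : ℂ) ^ 2 / 2 * lap f z

lemma lap_Ds {f : ℂ → ℂ} (hf : ContDiff ℝ ∞ f) (h : ℝ) (z : ℂ) :
    (h : ℂ) ^ 2 * lap f z = Ds h 1 (Ds h (-1) f) z := by
  have hx := Pool.Agent.Y265.RW.dx_smooth' hf
  have hy := Pool.Agent.Y265.RW.dy_smooth' hf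
  have h1 := (hx.differentiable (by simp) z).hasFDerivAt
  have h2 := (hy.differentiable (by simp) z).hasFDerivAt
  have f1 : HasFDerivAt (Ds h (-1) f) ((h : ℂ) • (fderiv ℝ (dx f) z +
      (((-1 : ℤ) : ℂ) * I : ℂ) • fderiv ℝ (dy f) z)) z := by
    have := (h1.add (h2.const_mul (((-1 : ℤ) : ℂ) * I : ℂ))).const_mul (h : ℂ)
    refine this.congr_of_eventuallyEq (Eventually.of_forall fun w => ?_)
    simp only [Ds, Pi.add_apply]
  have e := f1.fderiv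
  have sy : dy (dx f) z = dx (dy f) z := (Pool.Agent.Y265.RW.symm' hf z).symm
  show _ = (h : ℂ) * (fderiv ℝ (Ds h (-1) f) z 1 + ((1 : ℤ) : ℂ) * I *
    fderiv ℝ (Ds h (-1) f) z I)
  rw [e]
  simp only [_root_.smul_apply, _root_.add_apply, smul_eq_mul]
  simp only [lap]
  change (fderiv ℝ (dx f) z) I = (fderiv ℝ (dy f) z) 1 at sy
  change (h : ℂ) ^ 2 * ((fderiv ℝ (dx f) z) 1 + (fderiv ℝ (dy f) z) I) = _
  rw [sy]
  have hI : I * I = -1 := Complex.I_mul_I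
  push_cast
  linear_combination ((h : ℂ) ^ 2 * (fderiv ℝ (dy f) z) I) * hI

lemma QE.ao (hB : IsOpen B) (hU : Fam B h U) {f : ℕ → ℂ → ℂ} (hf : QE B h U f) :
    QE B h U (fun n z => Ao (h n) (f n) z) := by
  refine (hf.add (((hf.ds hB hU (s := -1) (Or.inr rfl)).ds hB hU (s := 1)
    (Or.inl rfl)).cmul (1 / 2))).cg fun n z => ?_
  simp only [Ao]
  have := lap_Ds (hf.sm hB hU n) (h n) z
  linear_combination (1 / 2 : ℂ) * this

/-- `(1 + (h²/2) Δ) (ψ U_a U_b)` -/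
lemma ao_prod (hB : IsOpen B) (hU : Fam B h U) {ψ : ℂ → ℝ} (hψ : TF B ψ) (a b : ℤ) :
    ∃ Q, QE B h U Q ∧ ∀ n z, Ao (h n) (fun z => (ψ z : ℂ) * (U n a z * U n b z)) z =
      -(1 / 2) * ((ψ z : ℂ) * (U n (a + 1) z * U n (b - 1) z) +
        (ψ z : ℂ) * (U n (a - 1) z * U n (b + 1) z)) + Q n z := by
  have s0 : ∀ a b n, ContDiff ℝ ∞ (fun z => (ψ z : ℂ) * (U n a z * U n b z)) := fun a b n =>
    (tfS hB hψ ((hU.smooth n a).mul (hU.smooth n b))).1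
  have sx : ∀ n, ContDiff ℝ ∞ (fun z => ((dx ψ z : ℝ) : ℂ) * (U n a z * U n b z)) := fun n =>
    (tfS hB (tfx hψ) ((hU.smooth n a).mul (hU.smooth n b))).1
  have sy : ∀ n, ContDiff ℝ ∞ (fun z => ((dy ψ z : ℝ) : ℂ) * (U n a z * U n b z)) := fun n =>
    (tfS hB (tfy hψ) ((hU.smooth n a).mul (hU.smooth n b))).1
  -- the terms with a factor `h`
  have q1 := ((QE.mk (h := h) (U := U) (tfx hψ) a b).add
    ((QE.mk (h := h) (U := U) (tfy hψ) a b).cmul (((-1 : ℤ) : ℂ) * I))).ds hB hU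
      (s := 1) (Or.inl rfl)
  have q2 := (QE.mk (h := h) (U := U) (tfx hψ) (a + 1) b).add
    ((QE.mk (h := h) (U := U) (tfy hψ) (a + 1) b).cmul (((1 : ℤ) : ℂ) * I))
  have q3 := (QE.mk (h := h) (U := U) (tfx hψ) a (b + 1)).add
    ((QE.mk (h := h) (U := U) (tfy hψ) a (b + 1)).cmul (((1 : ℤ) : ℂ) * I))
  refine ⟨_, ((q1.add q2).add q3).cmul (1 / 2), fun n z => ?_⟩
  have e1 : Ds (h n) (-1) (fun z => (ψ z : ℂ) * (U n a z * U n b z)) = fun z =>
      ((h n : ℂ) * (((dx ψ z : ℝ) : ℂ) * (U n a z * U n b z)) +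
      (((-1 : ℤ) : ℂ) * I) * ((h n : ℂ) * (((dy ψ z : ℝ) : ℂ) * (U n a z * U n b z)))) +
      (((ψ z : ℂ) * (U n (a + 1) z * U n b z)) + ((ψ z : ℂ) * (U n a z * U n (b + 1) z))) := by
    funext z
    rw [Ds_loc hB hU hU (Or.inr rfl) hψ n a b z]
    simp only [sub_neg_eq_add]
    push_cast
    ring
  have t1 := (contDiff_const (c := (h n : ℂ))).mul (sx n)
  have t2 := (contDiff_const (c := (((-1 : ℤ) : ℂ) * I))).mul
    ((contDiff_const (c := (h n : ℂ))).mul (sy n))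
  have e2 := lap_Ds (s0 a b n) (h n) z
  rw [e1, Ds_add (t1.add t2) ((s0 (a + 1) b n).add (s0 a (b + 1) n)),
    Ds_add (s0 (a + 1) b n) (s0 a (b + 1) n),
    Ds_loc hB hU hU (Or.inl rfl) hψ n (a + 1) b z, Ds_loc hB hU hU (Or.inl rfl) hψ n a (b + 1) z,
    add_sub_cancel_right, add_sub_cancel_right] at e2
  simp only [Ao]
  push_cast at e2 ⊢
  linear_combination (1 / 2 : ℂ) * e2

end

end Pool.Agent.K3h55.PW
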