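import Pool.Agent.K3h55.PW.P
import Pool.Agent.K3h55.PW.M
import Pool.Agent.K3h55.PW.E3

/-! The coefficients of the Chebyshev polynomials of the Laplacian. -/
set_option autoImplicit false
open MeasureTheory Filter Topology Complex Set
open scoped ContDiff Real Manifold RealInnerProductSpace

namespace Pool.Agent.K3h55.PW

open Pool.Agent.W745.RW
open Pool.Agent.TH294.RS (TF.mulc)
open Polynomial.Chebyshev (T)

noncomputable section

variable {Ω : Set ℂ} {ι : Type*} {V : ι → ℂ → ℝ} {μ : ι → ℝ}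

lemma cf_lin (hΩ : IsOpen Ω) (sV : ∀ i, ContDiffOn ℝ ∞ (V i) Ω) {f g : ℂ → ℝ} (hf : TF Ω f)
    (hg : TF Ω g) (a b : ℝ) (i : ι) :
    cf Ω V (fun z => a * f z + b * g z) i = a * cf Ω V f i + b * cf Ω V g i := by
  have int_of : ∀ {f : ℂ → ℝ}, TF Ω f → Integrable (fun z => f z * V i z) (volume.restrict Ω) :=
    fun hf => ((TF.mulc hΩ hf (sV i)).1.continuous.integrable_of_hasCompactSupport
      (TF.mulc hΩ hf (sV i)).2.1).restrict
  unfold cf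
  rw [← integral_const_mul, ← integral_const_mul, ← integral_add ((int_of hf).const_mul a)
    ((int_of hg).const_mul b)]
  congr 1; funext z; ring

lemma cf_Ar (hΩ : IsOpen Ω) (sV : ∀ i, ContDiffOn ℝ ∞ (V i) Ω)
    (eV : ∀ i, ∀ z ∈ Ω, lap (V i) z + μ i * V i z = 0) {g : ℂ → ℝ} (hg : TF Ω g) (h : ℝ) (i : ι) :
    cf Ω V (Ar h g) i = (1 - h ^ 2 * μ i / 2) * cf Ω V g i := by
  have e : Ar h g = fun z => 1 * g z + h ^ 2 / 2 * lap g z := by
    funext z; simp only [Ar]; ring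
  rw [e, cf_lin hΩ sV hg (TF.lap' hg), green hΩ sV eV hg]
  ring

lemma cf_G (hΩ : IsOpen Ω) (sV : ∀ i, ContDiffOn ℝ ∞ (V i) Ω)
    (eV : ∀ i, ∀ z ∈ Ω, lap (V i) z + μ i * V i z = 0) {f : ℂ → ℝ} (hf : TF Ω f) (h : ℝ) (i : ι)
    (j : ℕ) :
    cf Ω V (G h f j) i = (T ℝ (j : ℤ)).eval (1 - h ^ 2 * μ i / 2) * cf Ω V f i ∧
    cf Ω V (G h f (j + 1)) i =
      (T ℝ ((j + 1 : ℕ) : ℤ)).eval (1 - h ^ 2 * μ i / 2) * cf Ω V f i := by
  induction j with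
  | zero =>
    refine ⟨by simp [G], ?_⟩
    show cf Ω V (Ar h f) i = _
    rw [cf_Ar hΩ sV eV hf]
    simp
  | succ j ih =>
    refine ⟨ih.2, ?_⟩
    have e : G h f (j + 1 + 1) = fun z => 2 * Ar h (G h f (j + 1)) z + (-1) * G h f j z := by
      funext z
      show 2 * Ar h (G h f (j + 1)) z - G h f j z = _
      ring
    have t1 := TF.G' hf h (j + 1)
    rw [e, cf_lin hΩ sV (TF.Ar' t1 h) (TF.G' hf h j), cf_Ar hΩ sV eV t1, ih.1, ih.2]
    have h3 := Polynomial.Chebyshev.T_add_two ℝ (j : ℤ)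
    have c1 : (((j + 1 + 1 : ℕ)) : ℤ) = (j : ℤ) + 2 := by push_cast; ring
    have c2 : (((j + 1 : ℕ)) : ℤ) = (j : ℤ) + 1 := by push_cast; ring
    rw [c1, c2, h3]
    simp only [Polynomial.eval_sub, Polynomial.eval_mul, Polynomial.eval_ofNat, Polynomial.eval_X]
    ring

/-- the data for the analysis of the moments -/
theorem dat (hΩ : IsOpen Ω) {h : ℕ → ℝ} {u : ℕ → ℂ → ℝ} (hS : Sys Ω h u) {φ : ℂ → ℝ}
    (hφ : TF Ω φ) (hu : ∀ n, ContDiffOn ℝ ∞ (u n) Ω)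
    {b : HilbertBasis ι ℝ (Lp ℝ 2 (volume.restrict Ω))}
    (hb : ∀ i, (b i : ℂ → ℝ) =ᵐ[volume.restrict Ω] V i)
    (sV : ∀ i, ContDiffOn ℝ ∞ (V i) Ω)
    (eV : ∀ i, ∀ z ∈ Ω, lap (V i) z + μ i * V i z = 0) (hμ : ∀ i, 0 ≤ μ i) :
    Dat (fun n i => 1 - h n ^ 2 * μ i / 2) (fun n i => cf Ω V (fun z => φ z * u n z ^ 2) i ^ 2)
      (∫ z, φ z ^ 2) (fun n => (∫ z, φ z ^ 2 * u n z ^ 4) - 3 * ∫ z, φ z ^ 2) := by
  have tf : ∀ n, TF Ω (fun z => φ z * u n z ^ 2) := fun n => TF.mulc hΩ hφ ((hu n).pow 2)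
  have hs : ∀ n (j : ℕ), HasSum (fun i => (T ℝ (j : ℤ)).eval (1 - h n ^ 2 * μ i / 2) *
      cf Ω V (fun z => φ z * u n z ^ 2) i ^ 2)
      (∫ z, G (h n) (fun z => φ z * u n z ^ 2) j z * (φ z * u n z ^ 2)) := by
    intro n j
    have := parseval hb (TF.G' (tf n) (h n) j) (tf n)
    refine this.congr_fun fun i => ?_
    rw [(cf_G hΩ sV eV (tf n) (h n) i j).1]
    ring
  refine ⟨fun n i => sq_nonneg _, fun n i => ?_, integral_nonneg fun z => sq_nonneg _,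
    fun n j => (hs n j).summable, fun j => ?_⟩
  · have := mul_nonneg (sq_nonneg (h n)) (hμ i)
    linarith
  · refine (cheb_mom hΩ hS hφ tf j).congr fun n => ?_
    rw [(hs n j).tsum_eq]

end

end Pool.Agent.K3h55.PW
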